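import Pool.Agent.Lib.MP_cb9986_co.TR.Trans
import Pool.Agent.Lib.MP_cb9986_co.Big
import Pool.Agent.Lib.MP_cb9986_co.Infl

/-!
Theorem TR for partial Latin squares.
-/

set_option autoImplicit false
open Finset

namespace Pool.Agent.Lib.MP_cb9986_co

variable {n : ℕ}

/-- `(a, b, c)` preserves the filled cells, the symbols of the columns and the symbols of the
rows. -/
def Shape (L : Fin n → Fin n → Option (Fin n)) (a b c : Equiv.Perm (Fin n)) : Prop :=
  (∀ x y, (∃ z, L (a x) (b y) = some z) ↔ ∃ z, L x y = some z) ∧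
  (∀ y z, (∃ x, L x (b y) = some (c z)) ↔ ∃ x, L x y = some z) ∧
  (∀ x z, (∃ y, L (a x) y = some (c z)) ↔ ∃ y, L x y = some z)

theorem aut3_of_shape {L : Fin n → Fin n → Option (Fin n)} {a b c : Equiv.Perm (Fin n)}
    (h : Shape L a b c) : Aut3 (G0 L) (G1 L) (G2 L) a b c := by
  refine ⟨?_, ?_, ?_⟩
  · intro x y
    unfold G0
    simp only [h.1 x y]
  · intro y z
    unfold G1
    simp only [h.2.1 y z]
  · intro z x
    unfold G2
    simp only [h.2.2 x z]

/-- The shape symmetries are transitive on rows, on columns and on symbols. -/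
def LineTr (L : Fin n → Fin n → Option (Fin n)) : Prop :=
  (∀ x x', ∃ a b c, Shape L a b c ∧ a x = x') ∧
  (∀ y y', ∃ a b c, Shape L a b c ∧ b y = y') ∧
  (∀ z z', ∃ a b c, Shape L a b c ∧ c z = z')

theorem trans3_of_lineTr {L : Fin n → Fin n → Option (Fin n)} (h : LineTr L) :
    Trans3 (G0 L) (G1 L) (G2 L) := by
  refine ⟨fun x x' => ?_, fun y y' => ?_, fun z z' => ?_⟩
  · obtain ⟨a, b, c, h1, h2⟩ := h.1 x x'
    exact ⟨a, b, c, aut3_of_shape h1, h2⟩
  · obtain ⟨a, b, c, h1, h2⟩ := h.2.1 y y'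
    exact ⟨a, b, c, aut3_of_shape h1, h2⟩
  · obtain ⟨a, b, c, h1, h2⟩ := h.2.2 z z'
    exact ⟨a, b, c, aut3_of_shape h1, h2⟩

/-- Rational decompositions of the live graph. -/
theorem quarter_aux {L : Fin n → Fin n → Option (Fin n)} (hL : IsPLS L) {k : ℕ}
    (hk : UsedAtMost k L) (h4 : 4 * k ≤ n) (hn : 0 < n) (hT : LineTr L) :
    ∃ y : Fin n → Fin n → Fin n → ℚ, (∀ r c s, 0 ≤ y r c s) ∧
        (∀ r c s, G0 L r c = 0 ∨ G1 L c s = 0 ∨ G2 L s r = 0 → y r c s = 0) ∧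
        (4 * k < n → ∀ r c s, G0 L r c = 1 → G1 L c s = 1 → G2 L s r = 1 → 0 < y r c s) ∧
        (∀ r c, G0 L r c = 1 → ∑ s, y r c s = 1) ∧
        (∀ c s, G1 L c s = 1 → ∑ r, y r c s = 1) ∧
        (∀ s r, G2 L s r = 1 → ∑ c, y r c s = 1) := by
  have H := hyp_of_pls hL hk
  have h4' : 4 * (k : ℝ) ≤ n := by exact_mod_cast h4
  obtain ⟨w, w1, w2, w3, w4, w5, w6⟩ := tri_trans H h4' hn (trans3_of_lineTr hT)
  obtain ⟨y, y0, y1, y2, y3, y4⟩ := rat_family (ι := Fin n × Fin n × Fin n) n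
    (fun p => w p.1 p.2.1 p.2.2) (fun p => w1 _ _ _)
  refine ⟨fun r c s => y (r, c, s), fun r c s => y0 _, ?_, ?_, ?_, ?_, ?_⟩
  · intro r c s h
    exact y2 (r, c, s) (w2 r c s h)
  · intro hlt r c s a b d
    exact y1 (r, c, s) (w3 (by exact_mod_cast hlt) r c s a b d)
  · intro r c h
    exact y4 (fun s => (r, c, s)) (w4 r c h)
  · intro c s h
    exact y4 (fun r => (r, c, s)) (w5 c s h)
  · intro s r h
    exact y4 (fun c => (r, c, s)) (w6 s r h)

theorem frac_quarter {L : Fin n → Fin n → Option (Fin n)} (hL : IsPLS L) {k : ℕ}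
    (hk : UsedAtMost k L) (h4 : 4 * k ≤ n) (hT : LineTr L) :
    ∃ x : Fin n → Fin n → Fin n → ℚ, IsFracCompletion L x := by
  rcases Nat.eq_zero_or_pos n with hn | hn
  · subst hn
    exact ⟨fun _ _ _ => 0, fun r => r.elim0, fun r => r.elim0, fun r => r.elim0, fun r => r.elim0,
      fun r => r.elim0⟩
  obtain ⟨y, y0, y1, -, y3, y4, y5⟩ := quarter_aux hL hk h4 hn hT
  obtain ⟨a, b, c⟩ := glue hL (1 : ℚ) y y1 y3 y4 y5
  refine ⟨fun r c s => if L r c = some s then 1 else y r c s, ?_, a, b, c, ?_⟩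
  · intro r c s
    show (0 : ℚ) ≤ if L r c = some s then 1 else y r c s
    split_ifs
    · norm_num
    · exact y0 r c s
  · intro r c s h
    show (if L r c = some s then (1 : ℚ) else y r c s) = 1
    rw [if_pos h]

/-- Integral `m`-fold completions for all large `m` from a positive rational decomposition. -/
theorem int_of_data {L : Fin n → Fin n → Option (Fin n)} (hP : IsPLS L)
    (y : Fin n → Fin n → Fin n → ℚ)
    (y1 : ∀ r c s, G0 L r c = 0 ∨ G1 L c s = 0 ∨ G2 L s r = 0 → y r c s = 0)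
    (y2 : ∀ r c s, G0 L r c = 1 → G1 L c s = 1 → G2 L s r = 1 → 0 < y r c s)
    (y3 : ∀ r c, G0 L r c = 1 → ∑ s, y r c s = 1)
    (y4 : ∀ c s, G1 L c s = 1 → ∑ r, y r c s = 1)
    (y5 : ∀ s r, G2 L s r = 1 → ∑ c, y r c s = 1)
    (z : Fin n → Fin n → Fin n → ℤ)
    (z1 : ∀ r c s, G0 L r c = 0 ∨ G1 L c s = 0 ∨ G2 L s r = 0 → z r c s = 0)
    (z3 : ∀ r c, G0 L r c = 1 → ∑ s, z r c s = 1)
    (z4 : ∀ c s, G1 L c s = 1 → ∑ r, z r c s = 1)
    (z5 : ∀ s r, G2 L s r = 1 → ∑ c, z r c s = 1) :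
    ∃ m₁ : ℕ, ∀ m : ℕ, m₁ ≤ m → ∃ A : Fin n → Fin n → Fin n → ℕ,
      (∀ r c, ∑ s, A r c s = m) ∧ (∀ r s, ∑ c, A r c s = m) ∧ (∀ c s, ∑ r, A r c s = m) ∧
      ∀ r c s, L r c = some s → A r c s = m := by
  classical
  -- common denominator
  set m₀ : ℕ := ∏ p : Fin n × Fin n × Fin n, (y p.1 p.2.1 p.2.2).den with hm₀
  have hm₀pos : 0 < m₀ := Finset.prod_pos fun p _ => (y p.1 p.2.1 p.2.2).den_pos
  have hB : ∀ r c s, ∃ a : ℤ, (a : ℚ) = m₀ * y r c s := by
    intro r c s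
    have h1 : (y r c s).den ∣ m₀ :=
      Finset.dvd_prod_of_mem (fun p : Fin n × Fin n × Fin n => (y p.1 p.2.1 p.2.2).den)
        (Finset.mem_univ (r, c, s))
    obtain ⟨q, hq⟩ := h1
    refine ⟨q * (y r c s).num, ?_⟩
    have h3 : ((y r c s).den : ℚ) * y r c s = (y r c s).num := by
      rw [mul_comm]; exact Rat.mul_den_eq_num _
    rw [hq]; push_cast
    rw [mul_comm ((y r c s).den : ℚ) q, mul_assoc, h3]
  choose B hB using hB
  have B0 : ∀ r c s, G0 L r c = 0 ∨ G1 L c s = 0 ∨ G2 L s r = 0 → B r c s = 0 := by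
    intro r c s h
    have := hB r c s
    rw [y1 r c s h, mul_zero] at this
    exact_mod_cast this
  have hm₀Q : (0 : ℚ) < m₀ := by exact_mod_cast hm₀pos
  have Bp : ∀ r c s, G0 L r c = 1 → G1 L c s = 1 → G2 L s r = 1 → 1 ≤ B r c s := by
    intro r c s a b d
    have h1 : (0 : ℚ) < B r c s := by
      rw [hB]; exact mul_pos hm₀Q (y2 r c s a b d)
    have h2 : (0 : ℤ) < B r c s := by exact_mod_cast h1
    omega
  have Bs : ∀ (f : Fin n → ℚ) (b : Fin n → ℤ), (∀ i, (b i : ℚ) = m₀ * f i) → ∑ i, f i = 1 →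
      ∑ i, b i = m₀ := by
    intro f b hb hf
    have : ((∑ i, b i : ℤ) : ℚ) = (m₀ : ℤ) := by
      push_cast
      simp_rw [hb]
      rw [← Finset.mul_sum, hf, mul_one]
    exact_mod_cast this
  -- bound for the signed solution
  set Z : ℕ := ∑ p : Fin n × Fin n × Fin n, (z p.1 p.2.1 p.2.2).natAbs with hZ
  have hZle : ∀ r c s, -(Z : ℤ) ≤ z r c s := by
    intro r c s
    have h1 : (z r c s).natAbs ≤ Z :=
      Finset.single_le_sum (f := fun p : Fin n × Fin n × Fin n => (z p.1 p.2.1 p.2.2).natAbs)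
        (fun _ _ => Nat.zero_le _) (Finset.mem_univ (r, c, s))
    omega
  refine ⟨m₀ * (m₀ * Z), ?_⟩
  intro m hm
  set q := m / m₀ with hq
  set ρ := m % m₀ with hρ
  have hdiv : m₀ * q + ρ = m := Nat.div_add_mod m m₀
  have hρlt : ρ < m₀ := Nat.mod_lt _ hm₀pos
  have hqge : m₀ * Z ≤ q := by
    rw [hq, Nat.le_div_iff_mul_le hm₀pos, mul_comm]
    exact hm
  set w : Fin n → Fin n → Fin n → ℤ := fun r c s => B r c s * q + ρ * z r c s with hw
  have wd : ∀ r c s, G0 L r c = 0 ∨ G1 L c s = 0 ∨ G2 L s r = 0 → w r c s = 0 := by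
    intro r c s h
    show B r c s * q + ρ * z r c s = 0
    rw [B0 r c s h, z1 r c s h]; ring
  have w0 : ∀ r c s, 0 ≤ w r c s := by
    intro r c s
    rcases (g_zo L).1 r c with h | h0
    · rw [wd r c s (Or.inl h)]
    rcases (g_zo L).2.1 c s with h | h1
    · rw [wd r c s (Or.inr (Or.inl h))]
    rcases (g_zo L).2.2 s r with h | h2
    · rw [wd r c s (Or.inr (Or.inr h))]
    have e1 := Bp r c s h0 h1 h2
    have e2 := hZle r c s
    show 0 ≤ B r c s * q + ρ * z r c s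
    have e3 : (q : ℤ) ≤ B r c s * q := by nlinarith [Int.natCast_nonneg q]
    have e4 : -((m₀ : ℤ) * Z) ≤ ρ * z r c s := by
      have f1 : (ρ : ℤ) * (-(Z : ℤ)) ≤ ρ * z r c s :=
        mul_le_mul_of_nonneg_left e2 (Int.natCast_nonneg ρ)
      have f2 : (ρ : ℤ) * Z ≤ m₀ * Z :=
        mul_le_mul_of_nonneg_right (by exact_mod_cast hρlt.le) (Int.natCast_nonneg Z)
      linarith
    have e5 : ((m₀ : ℤ) * Z) ≤ q := by exact_mod_cast hqge
    linarith
  have hmZ : (m₀ : ℤ) * q + ρ = m := by exact_mod_cast hdiv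
  have wsum : ∀ (b u : Fin n → ℤ), ∑ i, b i = m₀ → ∑ i, u i = 1 →
      ∑ i, (b i * q + ρ * u i) = m := by
    intro b u hb hu
    rw [Finset.sum_add_distrib, ← Finset.sum_mul, ← Finset.mul_sum, hb, hu, mul_one, hmZ]
  obtain ⟨a, b, c⟩ := glue hP (m : ℤ) w wd
    (fun r c h => wsum (fun s => B r c s) (fun s => z r c s)
      (Bs (fun s => y r c s) _ (fun s => hB r c s) (y3 r c h)) (z3 r c h))
    (fun c s h => wsum (fun r => B r c s) (fun r => z r c s)
      (Bs (fun r => y r c s) _ (fun r => hB r c s) (y4 c s h)) (z4 c s h))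
    (fun s r h => wsum (fun c => B r c s) (fun c => z r c s)
      (Bs (fun c => y r c s) _ (fun c => hB r c s) (y5 s r h)) (z5 s r h))
  have Fn : ∀ r c s, (0 : ℤ) ≤ if L r c = some s then (m : ℤ) else w r c s := by
    intro r c s
    split_ifs
    · exact Int.natCast_nonneg m
    · exact w0 r c s
  refine ⟨fun r c s => (if L r c = some s then (m : ℤ) else w r c s).toNat, ?_, ?_, ?_, ?_⟩
  · intro r c
    have : ((∑ s, (if L r c = some s then (m : ℤ) else w r c s).toNat : ℕ) : ℤ) = m := by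
      push_cast
      exact Eq.trans (Finset.sum_congr rfl fun s _ => Int.toNat_of_nonneg (Fn r c s)) (a r c)
    exact_mod_cast this
  · intro r s
    have : ((∑ c, (if L r c = some s then (m : ℤ) else w r c s).toNat : ℕ) : ℤ) = m := by
      push_cast
      exact Eq.trans (Finset.sum_congr rfl fun c _ => Int.toNat_of_nonneg (Fn r c s)) (b r s)
    exact_mod_cast this
  · intro c' s
    have : ((∑ r, (if L r c' = some s then (m : ℤ) else w r c' s).toNat : ℕ) : ℤ) = m := by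
      push_cast
      exact Eq.trans (Finset.sum_congr rfl fun r _ => Int.toNat_of_nonneg (Fn r c' s)) (c c' s)
    exact_mod_cast this
  · intro r c s h
    show (if L r c = some s then (m : ℤ) else w r c s).toNat = m
    rw [if_pos h]
    simp

theorem int_quarter {L : Fin n → Fin n → Option (Fin n)} (hL : IsPLS L) {k : ℕ}
    (hk : UsedAtMost k L) (h4 : 4 * k < n) (hT : LineTr L) :
    ∃ m₁ : ℕ, ∀ m : ℕ, m₁ ≤ m → ∃ A : Fin n → Fin n → Fin n → ℕ,
      (∀ r c, ∑ s, A r c s = m) ∧ (∀ r s, ∑ c, A r c s = m) ∧ (∀ c s, ∑ r, A r c s = m) ∧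
      ∀ r c s, L r c = some s → A r c s = m := by
  have hn : 0 < n := by omega
  obtain ⟨y, -, y1, y2, y3, y4, y5⟩ := quarter_aux hL hk h4.le hn hT
  have H := hyp_of_pls hL hk
  have h4' : 4 * (k : ℝ) < n := by exact_mod_cast h4
  obtain ⟨z, z1, z2, z3, z4⟩ := exists_int H hn h4'
  exact int_of_data hL y y1 (y2 h4) y3 y4 y5 z z1 z2 z3 z4

end Pool.Agent.Lib.MP_cb9986_co
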