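import Pool.Agent.Lib.MP_cb9986_co.Lim

/-!
Theorem TR: balanced tripartite graphs with at least `3n/4` neighbours into each class whose
automorphisms act transitively on each class have a fractional triangle decomposition.
-/

set_option autoImplicit false
open Finset Filter Topology

namespace Pool.Agent.Lib.MP_cb9986_co

variable {n : ℕ}

/-! ### The largest and the smallest value -/

theorem tr_max {g0 g1 g2 u0 u1 u2 : W n} {k e : ℝ} (H : Hyp k g0 g1 g2)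
    (S : Sol e g0 g1 g2 u0 u1 u2) {d : ℝ}
    (l0 : ∀ x, lam u0 x ≤ d / 2) (l1 : ∀ x, lam u1 x ≤ d / 2)
    {x y : Fin n} (m1 : ∀ a b, u1 a b ≤ u0 x y) (m2 : ∀ a b, u2 a b ≤ u0 x y)
    (hp : 0 < u0 x y) : (n - 4 * k + e) * u0 x y ≤ d := by
  have hl : g0 x y = 1 := by
    rcases H.z0 x y with h | h
    · rw [S.s0 x y h] at hp; exact absurd hp (lt_irrefl _)
    · exact h
  have h1 := edge H S hl
  have hF : FF g1 g2 u1 u2 x y ≤ 2 * k * u0 x y := by
    have e1 : ∑ z, (1 - g2 z x) * u1 y z ≤ k * u0 x y := by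
      calc ∑ z, (1 - g2 z x) * u1 y z ≤ ∑ z, (1 - g2 z x) * u0 x y :=
            Finset.sum_le_sum fun z _ =>
              mul_le_mul_of_nonneg_left (m1 y z) (by linarith [zo_le (H.z2 z x)])
        _ = (∑ z, (1 - g2 z x)) * u0 x y := by rw [Finset.sum_mul]
        _ ≤ _ := mul_le_mul_of_nonneg_right ((codeg H).2 x) hp.le
    have e2 : ∑ z, (1 - g1 y z) * u2 z x ≤ k * u0 x y := by
      calc ∑ z, (1 - g1 y z) * u2 z x ≤ ∑ z, (1 - g1 y z) * u0 x y :=
            Finset.sum_le_sum fun z _ =>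
              mul_le_mul_of_nonneg_left (m2 z x) (by linarith [zo_le (H.z1 y z)])
        _ = (∑ z, (1 - g1 y z)) * u0 x y := by rw [Finset.sum_mul]
        _ ≤ _ := mul_le_mul_of_nonneg_right ((codeg H.rot).1 y) hp.le
    unfold FF
    linarith
  have hN := NN_ge H x y
  have h2 : (n - 2 * k + e) * u0 x y ≤ (NN g1 g2 x y + e) * u0 x y :=
    mul_le_mul_of_nonneg_right (by linarith) hp.le
  have := l0 x
  have := l1 y
  linarith

theorem tr_min {g0 g1 g2 u0 u1 u2 : W n} {k e : ℝ} (H : Hyp k g0 g1 g2) (he : 0 < e)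
    (hk : 4 * k ≤ n) (S : Sol e g0 g1 g2 u0 u1 u2)
    (l0 : ∀ x, 0 ≤ lam u0 x) (l1 : ∀ x, 0 ≤ lam u1 x)
    {x y : Fin n} (m1 : ∀ a b, u0 x y ≤ u1 a b) (m2 : ∀ a b, u0 x y ≤ u2 a b) :
    0 ≤ u0 x y := by
  by_contra hcon
  push Not at hcon
  have hl : g0 x y = 1 := by
    rcases H.z0 x y with h | h
    · rw [S.s0 x y h] at hcon; exact absurd hcon (lt_irrefl _)
    · exact h
  have h1 := edge H S hl
  have hF : 2 * k * u0 x y ≤ FF g1 g2 u1 u2 x y := by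
    have e1 : k * u0 x y ≤ ∑ z, (1 - g2 z x) * u1 y z := by
      calc k * u0 x y ≤ (∑ z, (1 - g2 z x)) * u0 x y :=
            mul_le_mul_of_nonpos_right ((codeg H).2 x) hcon.le
        _ = ∑ z, (1 - g2 z x) * u0 x y := by rw [Finset.sum_mul]
        _ ≤ _ := Finset.sum_le_sum fun z _ =>
            mul_le_mul_of_nonneg_left (m1 y z) (by linarith [zo_le (H.z2 z x)])
    have e2 : k * u0 x y ≤ ∑ z, (1 - g1 y z) * u2 z x := by
      calc k * u0 x y ≤ (∑ z, (1 - g1 y z)) * u0 x y :=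
            mul_le_mul_of_nonpos_right ((codeg H.rot).1 y) hcon.le
        _ = ∑ z, (1 - g1 y z) * u0 x y := by rw [Finset.sum_mul]
        _ ≤ _ := Finset.sum_le_sum fun z _ =>
            mul_le_mul_of_nonneg_left (m2 z x) (by linarith [zo_le (H.z1 y z)])
    unfold FF
    linarith
  have hN := NN_ge H x y
  have h2 : 0 ≤ (NN g1 g2 x y + e - 2 * k) * u0 x y := by
    have := l0 x
    have := l1 y
    linarith
  have h3 : 0 < NN g1 g2 x y + e - 2 * k := by linarith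
  nlinarith

/-- Sign of the solution from the sign of the vertex multipliers. -/
theorem tr_nonneg {g0 g1 g2 u0 u1 u2 : W n} {k e : ℝ} (H : Hyp k g0 g1 g2) (he : 0 < e)
    (hk : 4 * k ≤ n) (hn : 0 < n) (S : Sol e g0 g1 g2 u0 u1 u2)
    (l0 : ∀ x, 0 ≤ lam u0 x) (l1 : ∀ x, 0 ≤ lam u1 x) (l2 : ∀ x, 0 ≤ lam u2 x) :
    (∀ x y, 0 ≤ u0 x y) ∧ (∀ x y, 0 ≤ u1 x y) ∧ (∀ x y, 0 ≤ u2 x y) := by
  have hne : Nonempty (Fin n × Fin n) := ⟨(⟨0, hn⟩, ⟨0, hn⟩)⟩
  obtain ⟨p0, h0⟩ := Finite.exists_min (fun p : Fin n × Fin n => u0 p.1 p.2)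
  obtain ⟨p1, h1⟩ := Finite.exists_min (fun p : Fin n × Fin n => u1 p.1 p.2)
  obtain ⟨p2, h2⟩ := Finite.exists_min (fun p : Fin n × Fin n => u2 p.1 p.2)
  have q0 : ∀ a b, u0 p0.1 p0.2 ≤ u0 a b := fun a b => h0 (a, b)
  have q1 : ∀ a b, u1 p1.1 p1.2 ≤ u1 a b := fun a b => h1 (a, b)
  have q2 : ∀ a b, u2 p2.1 p2.2 ≤ u2 a b := fun a b => h2 (a, b)
  have key : 0 ≤ u0 p0.1 p0.2 ∧ 0 ≤ u1 p1.1 p1.2 ∧ 0 ≤ u2 p2.1 p2.2 := by
    rcases le_total (u0 p0.1 p0.2) (u1 p1.1 p1.2) with h01 | h01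
    · rcases le_total (u0 p0.1 p0.2) (u2 p2.1 p2.2) with h02 | h02
      · have := tr_min H he hk S l0 l1 (fun a b => h01.trans (q1 a b)) (fun a b => h02.trans (q2 a b))
        exact ⟨this, this.trans h01, this.trans h02⟩
      · have := tr_min H.rot.rot he hk S.rot.rot l2 l0 (fun a b => h02.trans (q0 a b))
          (fun a b => (h02.trans h01).trans (q1 a b))
        exact ⟨this.trans h02, (this.trans h02).trans h01, this⟩
    · rcases le_total (u1 p1.1 p1.2) (u2 p2.1 p2.2) with h12 | h12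
      · have := tr_min H.rot he hk S.rot l1 l2 (fun a b => h12.trans (q2 a b))
          (fun a b => h01.trans (q0 a b))
        exact ⟨this.trans h01, this, this.trans h12⟩
      · have := tr_min H.rot.rot he hk S.rot.rot l2 l0
          (fun a b => (h12.trans h01).trans (q0 a b)) (fun a b => h12.trans (q1 a b))
        exact ⟨(this.trans h12).trans h01, this.trans h12, this⟩
  exact ⟨fun x y => key.1.trans (q0 x y), fun x y => key.2.1.trans (q1 x y),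
    fun x y => key.2.2.trans (q2 x y)⟩

/-- An upper bound for all values in terms of the vertex multipliers. -/
theorem tr_upper {g0 g1 g2 u0 u1 u2 : W n} {k e : ℝ} (H : Hyp k g0 g1 g2)
    (hn : 0 < n) (S : Sol e g0 g1 g2 u0 u1 u2) {d : ℝ}
    (l0 : ∀ x, lam u0 x ≤ d / 2) (l1 : ∀ x, lam u1 x ≤ d / 2) (l2 : ∀ x, lam u2 x ≤ d / 2) :
    ∃ P : ℝ, (∀ x y, u0 x y ≤ P) ∧ (P ≤ 0 ∨ (0 < P ∧ (n - 4 * k + e) * P ≤ d)) := by
  have hne : Nonempty (Fin n × Fin n) := ⟨(⟨0, hn⟩, ⟨0, hn⟩)⟩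
  obtain ⟨p0, h0⟩ := Finite.exists_max (fun p : Fin n × Fin n => u0 p.1 p.2)
  obtain ⟨p1, h1⟩ := Finite.exists_max (fun p : Fin n × Fin n => u1 p.1 p.2)
  obtain ⟨p2, h2⟩ := Finite.exists_max (fun p : Fin n × Fin n => u2 p.1 p.2)
  have q0 : ∀ a b, u0 a b ≤ u0 p0.1 p0.2 := fun a b => h0 (a, b)
  have q1 : ∀ a b, u1 a b ≤ u1 p1.1 p1.2 := fun a b => h1 (a, b)
  have q2 : ∀ a b, u2 a b ≤ u2 p2.1 p2.2 := fun a b => h2 (a, b)
  have fin : ∀ P : ℝ, (0 < P → (n - 4 * k + e) * P ≤ d) →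
      P ≤ 0 ∨ (0 < P ∧ (n - 4 * k + e) * P ≤ d) := by
    intro P hP
    rcases le_or_gt P 0 with h | h
    · exact Or.inl h
    · exact Or.inr ⟨h, hP h⟩
  rcases le_total (u1 p1.1 p1.2) (u0 p0.1 p0.2) with h01 | h01
  · rcases le_total (u2 p2.1 p2.2) (u0 p0.1 p0.2) with h02 | h02
    · exact ⟨u0 p0.1 p0.2, q0, fin _ fun h => tr_max H S l0 l1
        (fun a b => (q1 a b).trans h01) (fun a b => (q2 a b).trans h02) h⟩
    · exact ⟨u2 p2.1 p2.2, fun a b => (q0 a b).trans h02, fin _ fun h =>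
        tr_max H.rot.rot S.rot.rot l2 l0 (fun a b => (q0 a b).trans h02)
        (fun a b => (q1 a b).trans (h01.trans h02)) h⟩
  · rcases le_total (u2 p2.1 p2.2) (u1 p1.1 p1.2) with h12 | h12
    · exact ⟨u1 p1.1 p1.2, fun a b => (q0 a b).trans h01, fin _ fun h =>
        tr_max H.rot S.rot l1 l2 (fun a b => (q2 a b).trans h12)
        (fun a b => (q0 a b).trans h01) h⟩
    · exact ⟨u2 p2.1 p2.2, fun a b => (q0 a b).trans (h01.trans h12), fin _ fun h =>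
        tr_max H.rot.rot S.rot.rot l2 l0 (fun a b => (q0 a b).trans (h01.trans h12))
        (fun a b => (q1 a b).trans h12) h⟩

/-! ### Constant vertex sums -/

/-- All vertex sums of the three functions are equal to `c`. -/
def CC (c : ℝ) (u : EE n) : Prop :=
  (∀ x, pp u.1 x = c) ∧ (∀ x, pp u.2.1 x = c) ∧ (∀ x, pp u.2.2 x = c)

theorem cc_of_const {e : ℝ} {g0 g1 g2 : W n} (hn : 0 < n) {u : EE n}
    (S : Sol e g0 g1 g2 u.1 u.2.1 u.2.2)
    (c0 : ∀ x x', pp u.1 x = pp u.1 x') (c1 : ∀ x x', pp u.2.1 x = pp u.2.1 x')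
    (c2 : ∀ x x', pp u.2.2 x = pp u.2.2 x') : ∃ c, CC c u := by
  have hnR : (n : ℝ) ≠ 0 := by exact_mod_cast hn.ne'
  have ht : ∀ (v : W n), (∀ x x', pp v x = pp v x') → tau v = n * pp v ⟨0, hn⟩ := by
    intro v hv
    unfold tau
    rw [Finset.sum_congr rfl fun x _ => hv x ⟨0, hn⟩]
    simp
  have t1 := tau_eq S
  have t2 := tau_eq S.rot
  rw [ht _ c0, ht _ c1] at t1
  rw [ht _ c1, ht _ c2] at t2
  have e1 := mul_left_cancel₀ hnR t1
  have e2 := mul_left_cancel₀ hnR t2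
  exact ⟨pp u.1 ⟨0, hn⟩, fun x => c0 x _, fun x => (c1 x _).trans e1,
    fun x => (c2 x _).trans (e2.trans e1)⟩

/-- The common vertex sum is at most one half, with room if `4k < n`. -/
theorem cc_bound {g0 g1 g2 : W n} {k e c : ℝ} (H : Hyp k g0 g1 g2) (he : 0 < e)
    (hk : 4 * k ≤ n) (hn : 0 < n) {u : EE n}
    (S : Sol e g0 g1 g2 u.1 u.2.1 u.2.2) (hc : CC c u) :
    (n - 4 * k) / (2 * (3 * n - 4 * k)) ≤ 1 / 2 - c := by
  have hnR : (0 : ℝ) < n := by exact_mod_cast hn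
  have hl : ∀ v : W n, (∀ x, pp v x = c) → ∀ x, lam v x ≤ (1 - 2 * c) / 2 := by
    intro v hv x
    unfold lam
    rw [hv x]
    linarith
  obtain ⟨P, hP, hP2⟩ := tr_upper H hn S (hl _ hc.1) (hl _ hc.2.1) (hl _ hc.2.2)
  have hcP : c ≤ n * P := by
    rw [← hc.1 ⟨0, hn⟩]
    unfold pp
    calc ∑ z, u.1 ⟨0, hn⟩ z ≤ ∑ _z : Fin n, P := Finset.sum_le_sum fun z _ => hP _ z
      _ = n * P := by simp
  have hden : 0 < 2 * (3 * (n : ℝ) - 4 * k) := by linarith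
  rw [div_le_iff₀ hden]
  rcases hP2 with h | ⟨h, h2⟩
  · have h3 : c ≤ 0 := hcP.trans (mul_nonpos_of_nonneg_of_nonpos hnR.le h)
    nlinarith
  · have h4 : (n - 4 * k) * P ≤ 1 - 2 * c := by nlinarith
    have h5 : (n - 4 * k) * c ≤ n * (1 - 2 * c) := by
      calc (n - 4 * k) * c ≤ (n - 4 * k) * (n * P) :=
            mul_le_mul_of_nonneg_left hcP (by linarith)
        _ = n * ((n - 4 * k) * P) := by ring
        _ ≤ n * (1 - 2 * c) := mul_le_mul_of_nonneg_left h4 hnR.le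
    nlinarith

theorem exists_limit_const {g0 g1 g2 : W n} {k : ℝ} (H : Hyp k g0 g1 g2)
    (hk : 4 * k ≤ n) (hn : 0 < n) (hT : ∀ e : ℝ, 0 < e → ∃ c, CC c (sol g0 g1 g2 e)) :
    ∃ u : EE n, Sol 0 g0 g1 g2 u.1 u.2.1 u.2.2 ∧
      (∀ x y, 0 ≤ u.1 x y) ∧ (∀ x y, 0 ≤ u.2.1 x y) ∧ (∀ x y, 0 ≤ u.2.2 x y) ∧
      ∀ x, (n - 4 * k) / (2 * (3 * n - 4 * k)) ≤ mn u x := by
  set δ : ℝ := (n - 4 * k) / (2 * (3 * n - 4 * k)) with hδ
  have hnR : (0 : ℝ) < n := by exact_mod_cast hn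
  have hδ0 : 0 ≤ δ := div_nonneg (by linarith) (by linarith)
  set C : Set (ℝ × EE n) := {p | p ∈ Set.Icc (0 : ℝ × EE n) 1} ∩
    ({p | Sol p.1 g0 g1 g2 p.2.1 p.2.2.1 p.2.2.2} ∩ ⋂ x, {p | δ ≤ mn p.2 x}) with hC
  have hcomp : IsCompact C := by
    refine IsCompact.inter_right isCompact_Icc (IsClosed.inter (isClosed_Sol g0 g1 g2) ?_)
    exact isClosed_iInter fun x => isClosed_le continuous_const
      ((mn_cont x).comp continuous_snd)
  have himg : IsClosed (Prod.fst '' C) := (hcomp.image continuous_fst).isClosed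
  have hsub : Set.Ioc (0 : ℝ) 1 ⊆ Prod.fst '' C := by
    intro e he
    have S := sol_Sol H he.1
    obtain ⟨c, hc⟩ := hT e he.1
    set u := sol g0 g1 g2 e with hu
    have hb := cc_bound H he.1 hk hn S hc
    have hp : ∀ x, δ ≤ mn u x := by
      intro x
      unfold mn lam
      rw [hc.1 x, hc.2.1 x, hc.2.2 x]
      simpa using hb
    have l0 : ∀ x, 0 ≤ lam u.1 x := fun x => hδ0.trans ((hp x).trans (min_le_left _ _))
    have l1 : ∀ x, 0 ≤ lam u.2.1 x := fun x =>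
      hδ0.trans ((hp x).trans ((min_le_right _ _).trans (min_le_left _ _)))
    have l2 : ∀ x, 0 ≤ lam u.2.2 x := fun x =>
      hδ0.trans ((hp x).trans ((min_le_right _ _).trans (min_le_right _ _)))
    obtain ⟨h0, h1, h2⟩ := tr_nonneg H he.1 hk hn S l0 l1 l2
    refine ⟨(e, u), ⟨⟨⟨he.1.le, h0, h1, h2⟩, ⟨he.2, ?_, ?_, ?_⟩⟩, S, ?_⟩, rfl⟩
    · exact fun x y => le_one_of_mn h0 (l0 x)
    · exact fun x y => le_one_of_mn h1 (l1 x)
    · exact fun x y => le_one_of_mn h2 (l2 x)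
    · exact Set.mem_iInter.2 fun x => hp x
  have h0 : (0 : ℝ) ∈ Prod.fst '' C := by
    have h1 : closure (Set.Ioc (0 : ℝ) 1) ⊆ Prod.fst '' C :=
      closure_minimal hsub himg
    rw [closure_Ioc (by norm_num)] at h1
    exact h1 ⟨le_refl _, by norm_num⟩
  obtain ⟨⟨e, u⟩, hp, he⟩ := h0
  have he' : e = 0 := he
  subst he'
  obtain ⟨⟨⟨_, a0, a1, a2⟩, _⟩, hS, hm⟩ := hp
  exact ⟨u, hS, a0, a1, a2, fun x => Set.mem_iInter.1 hm x⟩

/-- Fractional triangle decomposition from constant vertex sums. -/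
theorem tri_const {g0 g1 g2 : W n} {k : ℝ} (H : Hyp k g0 g1 g2)
    (hk : 4 * k ≤ n) (hn : 0 < n) (hT : ∀ e : ℝ, 0 < e → ∃ c, CC c (sol g0 g1 g2 e)) :
    ∃ w : Fin n → Fin n → Fin n → ℝ, (∀ x y z, 0 ≤ w x y z) ∧
      (∀ x y z, g0 x y = 0 ∨ g1 y z = 0 ∨ g2 z x = 0 → w x y z = 0) ∧
      (4 * k < n → ∀ x y z, g0 x y = 1 → g1 y z = 1 → g2 z x = 1 → 0 < w x y z) ∧
      (∀ x y, g0 x y = 1 → ∑ z, w x y z = 1) ∧
      (∀ y z, g1 y z = 1 → ∑ x, w x y z = 1) ∧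
      (∀ z x, g2 z x = 1 → ∑ y, w x y z = 1) := by
  obtain ⟨u, S, h0, h1, h2, hmn⟩ := exists_limit_const H hk hn hT
  have hnR : (0 : ℝ) < n := by exact_mod_cast hn
  have pos : 4 * k < n → ∀ x y, g0 x y = 1 → 0 < u.1 x y := by
    intro hlt x y hx
    have hδ : 0 < ((n : ℝ) - 4 * k) / (2 * (3 * n - 4 * k)) :=
      div_pos (by linarith) (by linarith)
    have l0 : 0 < lam u.1 x := hδ.trans_le ((hmn x).trans (min_le_left _ _))
    have l1 : 0 < lam u.2.1 y :=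
      hδ.trans_le ((hmn y).trans ((min_le_right _ _).trans (min_le_left _ _)))
    have e1 := edge H S hx
    have e2 : 0 ≤ FF g1 g2 u.2.1 u.2.2 x y := by
      unfold FF
      refine add_nonneg (Finset.sum_nonneg fun z _ => ?_) (Finset.sum_nonneg fun z _ => ?_)
      · exact mul_nonneg (by linarith [zo_le (H.z2 z x)]) (h1 y z)
      · exact mul_nonneg (by linarith [zo_le (H.z1 y z)]) (h2 z x)
    rcases (h0 x y).eq_or_lt with h | h
    · rw [← h, mul_zero] at e1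
      linarith
    · exact h
  refine ⟨fun x y z => g0 x y * g1 y z * g2 z x * (u.1 x y + u.2.1 y z + u.2.2 z x),
    ?_, ?_, ?_, ?_, ?_, ?_⟩
  · intro x y z
    have e0 := zo_nonneg (H.z0 x y)
    have e1 := zo_nonneg (H.z1 y z)
    have e2 := zo_nonneg (H.z2 z x)
    have f0 := h0 x y
    have f1 := h1 y z
    have f2 := h2 z x
    positivity
  · rintro x y z (h | h | h) <;> simp [h]
  · intro hlt x y z e0 e1 e2
    have f0 := pos hlt x y e0
    have f1 := h1 y z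
    have f2 := h2 z x
    simp only [e0, e1, e2]
    linarith
  · intro x y hx
    have h := S.e0 x y hx
    rw [zero_mul, add_zero] at h
    rw [← h, XX]
    refine Finset.sum_congr rfl fun z _ => ?_
    simp only [hx]; ring
  · intro y z hx
    have h := S.e1 y z hx
    rw [zero_mul, add_zero] at h
    rw [← h, XX]
    refine Finset.sum_congr rfl fun x _ => ?_
    simp only [hx]; ring
  · intro z x hx
    have h := S.e2 z x hx
    rw [zero_mul, add_zero] at h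
    rw [← h, XX]
    refine Finset.sum_congr rfl fun y _ => ?_
    simp only [hx]; ring

/-! ### Invariance -/

/-- `(a, b, c)` preserves the three edge sets. -/
structure Aut3 (g0 g1 g2 : W n) (a b c : Equiv.Perm (Fin n)) : Prop where
  a0 : ∀ x y, g0 (a x) (b y) = g0 x y
  a1 : ∀ y z, g1 (b y) (c z) = g1 y z
  a2 : ∀ z x, g2 (c z) (a x) = g2 z x

theorem XX_aut {g1 g2 : W n} {u0 u1 u2 : W n} {a b c : Equiv.Perm (Fin n)}
    (h1 : ∀ y z, g1 (b y) (c z) = g1 y z) (h2 : ∀ z x, g2 (c z) (a x) = g2 z x) (x y : Fin n) :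
    XX g1 g2 (fun x y => u0 (a x) (b y)) (fun y z => u1 (b y) (c z))
      (fun z x => u2 (c z) (a x)) x y = XX g1 g2 u0 u1 u2 (a x) (b y) := by
  unfold XX
  rw [← Equiv.sum_comp c (fun z => g1 (b y) z * g2 z (a x) *
    (u0 (a x) (b y) + u1 (b y) z + u2 z (a x)))]
  refine Finset.sum_congr rfl fun z _ => ?_
  rw [h1, h2]

theorem sol_eq {g0 g1 g2 : W n} {k : ℝ} (H : Hyp k g0 g1 g2) {e : ℝ} (he : 0 < e) :
    TT g0 g1 g2 e (sol g0 g1 g2 e) = (g0, g1, g2) := by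
  have h1 := Ring.mul_inverse_cancel _ (TT_unit H he)
  exact congrArg (fun f : EE n →L[ℝ] EE n => f (g0, g1, g2)) h1

theorem sol_aut {g0 g1 g2 : W n} {k : ℝ} (H : Hyp k g0 g1 g2) {e : ℝ} (he : 0 < e)
    {a b c : Equiv.Perm (Fin n)} (A : Aut3 g0 g1 g2 a b c) :
    ((fun x y => (sol g0 g1 g2 e).1 (a x) (b y)), (fun y z => (sol g0 g1 g2 e).2.1 (b y) (c z)),
      (fun z x => (sol g0 g1 g2 e).2.2 (c z) (a x))) = sol g0 g1 g2 e := by
  have hinj : Function.Injective (TT g0 g1 g2 e) :=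
    ((ContinuousLinearMap.isUnit_iff_bijective).1 (TT_unit H he)).1
  apply hinj
  have hs := sol_eq H he
  rw [hs]
  rw [TT_apply] at hs ⊢
  set u := sol g0 g1 g2 e with hu
  have e0 : ∀ x y, g0 x y * XX g1 g2 u.1 u.2.1 u.2.2 x y + e * u.1 x y = g0 x y := fun x y => by
    have := congrFun (congrFun (congrArg Prod.fst hs) x) y
    simpa [KK] using this
  have e1 : ∀ x y, g1 x y * XX g2 g0 u.2.1 u.2.2 u.1 x y + e * u.2.1 x y = g1 x y := fun x y => by
    have := congrFun (congrFun (congrArg (fun p : EE n => p.2.1) hs) x) y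
    simpa [KK] using this
  have e2 : ∀ x y, g2 x y * XX g0 g1 u.2.2 u.1 u.2.1 x y + e * u.2.2 x y = g2 x y := fun x y => by
    have := congrFun (congrFun (congrArg (fun p : EE n => p.2.2) hs) x) y
    simpa [KK] using this
  refine Prod.ext ?_ (Prod.ext ?_ ?_)
  · funext x y
    show g0 x y * XX g1 g2 (fun x y => u.1 (a x) (b y)) (fun y z => u.2.1 (b y) (c z))
      (fun z x => u.2.2 (c z) (a x)) x y + e * u.1 (a x) (b y) = g0 x y
    rw [XX_aut A.a1 A.a2, ← A.a0 x y]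
    exact e0 (a x) (b y)
  · funext y z
    show g1 y z * XX g2 g0 (fun y z => u.2.1 (b y) (c z)) (fun z x => u.2.2 (c z) (a x))
      (fun x y => u.1 (a x) (b y)) y z + e * u.2.1 (b y) (c z) = g1 y z
    rw [XX_aut A.a2 A.a0, ← A.a1 y z]
    exact e1 (b y) (c z)
  · funext z x
    show g2 z x * XX g0 g1 (fun z x => u.2.2 (c z) (a x)) (fun x y => u.1 (a x) (b y))
      (fun y z => u.2.1 (b y) (c z)) z x + e * u.2.2 (c z) (a x) = g2 z x
    rw [XX_aut A.a0 A.a1, ← A.a2 z x]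
    exact e2 (c z) (a x)

/-- The automorphisms are transitive on each of the three classes. -/
def Trans3 (g0 g1 g2 : W n) : Prop :=
  (∀ x x', ∃ a b c, Aut3 g0 g1 g2 a b c ∧ a x = x') ∧
  (∀ y y', ∃ a b c, Aut3 g0 g1 g2 a b c ∧ b y = y') ∧
  (∀ z z', ∃ a b c, Aut3 g0 g1 g2 a b c ∧ c z = z')

theorem cc_of_trans {g0 g1 g2 : W n} {k : ℝ} (H : Hyp k g0 g1 g2) (hn : 0 < n)
    (T : Trans3 g0 g1 g2) {e : ℝ} (he : 0 < e) : ∃ c, CC c (sol g0 g1 g2 e) := by
  refine cc_of_const hn (sol_Sol H he) ?_ ?_ ?_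
  · intro x x'
    obtain ⟨a, b, c, A, rfl⟩ := T.1 x x'
    have h := congrArg Prod.fst (sol_aut H he A)
    unfold pp
    rw [← Equiv.sum_comp b (fun z => (sol g0 g1 g2 e).1 (a x) z)]
    refine Finset.sum_congr rfl fun z _ => ?_
    exact (congrFun (congrFun h x) z).symm
  · intro y y'
    obtain ⟨a, b, c, A, rfl⟩ := T.2.1 y y'
    have h := congrArg (fun p : EE n => p.2.1) (sol_aut H he A)
    unfold pp
    rw [← Equiv.sum_comp c (fun z => (sol g0 g1 g2 e).2.1 (b y) z)]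
    refine Finset.sum_congr rfl fun z _ => ?_
    exact (congrFun (congrFun h y) z).symm
  · intro z z'
    obtain ⟨a, b, c, A, rfl⟩ := T.2.2 z z'
    have h := congrArg (fun p : EE n => p.2.2) (sol_aut H he A)
    unfold pp
    rw [← Equiv.sum_comp a (fun x => (sol g0 g1 g2 e).2.2 (c z) x)]
    refine Finset.sum_congr rfl fun x _ => ?_
    exact (congrFun (congrFun h z) x).symm

/-- **Theorem TR**, graph form, over the reals. -/
theorem tri_trans {g0 g1 g2 : W n} {k : ℝ} (H : Hyp k g0 g1 g2)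
    (hk : 4 * k ≤ n) (hn : 0 < n) (T : Trans3 g0 g1 g2) :
    ∃ w : Fin n → Fin n → Fin n → ℝ, (∀ x y z, 0 ≤ w x y z) ∧
      (∀ x y z, g0 x y = 0 ∨ g1 y z = 0 ∨ g2 z x = 0 → w x y z = 0) ∧
      (4 * k < n → ∀ x y z, g0 x y = 1 → g1 y z = 1 → g2 z x = 1 → 0 < w x y z) ∧
      (∀ x y, g0 x y = 1 → ∑ z, w x y z = 1) ∧
      (∀ y z, g1 y z = 1 → ∑ x, w x y z = 1) ∧
      (∀ z x, g2 z x = 1 → ∑ y, w x y z = 1) :=
  tri_const H hk hn fun _ he => cc_of_trans H hn T he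

end Pool.Agent.Lib.MP_cb9986_co
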